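import Pool.Agent.Helper41.LD5.Defs
import Pool.Agent.Helper9.LD4.ST
import Pool.Agent.Helper17.LD4.Sys
import Pool.Agent.Helper52.LD4.GA

/-!
# Project LD5, block STP: one block of a stage with general sequences
-/

set_option autoImplicit false

namespace Pool.Agent.Helper52.LD5

open Set MeasureTheory Filter Topology
open Pool.Agent.Helper41.LD (av var haar DiscLe Dioph Kk)
open Pool.Agent.Helper41.LD2 (EqA)
open Pool.Agent.Helper41.LD3 (Cst Us tm fr lamG base_gt)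
open Pool.Agent.Helper41.LD4
open Pool.Agent.Helper41.LD5
open Pool.Agent.Helper9.LD4 (step4)
open Pool.Agent.Helper17.LD4 (sys_all sys_cls17 PP_nums)
open Pool.Agent.Helper52.LD4 (gain4)

variable {κ : ℕ} {τ : ℕ → ℝ} {ty : ℕ → ℕ × ℕ × ℕ} {g Q R CF DF Cb m Cq G K : ℕ} {U : ℕ → ℕ → ℝ → ℝ} {T : ℕ → ℝ → ℕ}

/-- `GG_NB` for general sequences -/
theorem GU_NB (H : Cst4 τ ty g Q R CF DF Cb m Cq G) (hK : 1 ≤ K) {n r : ℕ} {a ℓ : ℝ} {p : Σ _ : ℕ, ℕ × ℕ × ℕ × ℕ} (hp : p ∈ PP ty g Q K)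
    (h : NBg (U p.1) n r (sysN (ty (p.1 / Q)).2.1 K) a ℓ) : NB (GU ty Q U p) n r a ℓ := by
  obtain ⟨h1, h2⟩ := Finset.mem_sigma.1 hp
  have S := sys_cls17 H hK (Finset.mem_range.1 h1)
  exact fun j hj x hx => (S.fn _ h2).grid _ _ (h j hj x hx)

lemma av_abs_le_one {f : ℝ → ℝ} (a : ℝ) {ℓ : ℝ} (hℓ : 0 < ℓ) : |av f a ℓ| ≤ av (fun x => |f x|) a ℓ := by
  unfold av
  rw [abs_div, abs_of_pos hℓ]
  refine div_le_div_of_nonneg_right ?_ hℓ.le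
  exact intervalIntegral.abs_integral_le_integral_abs (by linarith)

/-- the sum of the test averages of one level -/
lemma level_sum {ι : Type} (I : Finset ι) (F : ι → ℝ → ℝ) (hm : ∀ q ∈ I, Measurable (F q)) (hb : ∀ q ∈ I, ∀ x, |F q x| ≤ 1)
    (h : ∀ x, ∑ q ∈ I, |F q x| ≤ 1) (a : ℝ) {ℓ : ℝ} (hℓ : 0 < ℓ) : ∑ q ∈ I, |av (F q) a ℓ| ≤ 1 := by
  have hint : ∀ q ∈ I, IntervalIntegrable (fun x => |F q x|) volume a (a + ℓ) := by
    intro q hq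
    refine (intervalIntegrable_const (c := (1 : ℝ))).mono_fun ((hm q hq).abs.aestronglyMeasurable) ?_
    refine Filter.Eventually.of_forall fun x => ?_
    show ‖|F q x|‖ ≤ ‖(1 : ℝ)‖
    rw [Real.norm_eq_abs, Real.norm_eq_abs, abs_abs, abs_one]
    exact hb q hq x
  calc ∑ q ∈ I, |av (F q) a ℓ| ≤ ∑ q ∈ I, av (fun x => |F q x|) a ℓ := Finset.sum_le_sum fun q _ => av_abs_le_one a hℓ
    _ = (∫ x in a..(a + ℓ), ∑ q ∈ I, |F q x|) / ℓ := by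
        unfold av
        rw [intervalIntegral.integral_finsetSum hint, Finset.sum_div]
    _ ≤ (∫ _x in a..(a + ℓ), (1 : ℝ)) / ℓ := by
        refine div_le_div_of_nonneg_right ?_ hℓ.le
        refine intervalIntegral.integral_mono_on (by linarith) ?_ intervalIntegrable_const fun x _ => h x
        have h1 := IntervalIntegrable.sum I hint
        have e : (fun x => ∑ q ∈ I, |F q x|) = ∑ q ∈ I, fun x => |F q x| := by
          funext x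
          rw [Finset.sum_apply]
        rw [e]
        exact h1
    _ = 1 := by
        rw [intervalIntegral.integral_const, smul_eq_mul, mul_one, add_sub_cancel_left, div_self hℓ.ne']

open Classical in
/-- STP: one block of a stage -/
theorem stage_step5 (H : Cst4 τ ty g Q R CF DF Cb m Cq G) (B : Num κ R DF Cb m G K) {ℓ a : ℝ} (hℓ : 0 < ℓ)
    (hmeas : ∀ s < g * Q, ∀ j, Measurable (U s j))
    (hblk : ∀ s < g * Q, T s (ℓ / 2 ^ (K ^ (2 * κ + 1))) ≤ T s ℓ + CF * K ^ (2 * κ + 1) ∧ T s ℓ + 3 * (R * K) ≤ T s (ℓ / 2 ^ (K ^ (2 * κ + 1))))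
    (hcount : ∀ s < g * Q, T s (ℓ / 2 ^ (K ^ (2 * κ + 1))) + R * K ≤ 2 ^ (2 * K))
    (hWd : WdU ty τ g Q m U T K a ℓ)
    (hnb : ∀ s < g * Q, (((Finset.range (2 ^ (K ^ (2 * κ + 1)))).filter fun b : ℕ => ¬ NBg (U s) (T s (ℓ / 2 ^ (K ^ (2 * κ + 1)))) (R * K)
      (sysN (ty (s / Q)).2.1 K) (a + b * (ℓ / (2 ^ (K ^ (2 * κ + 1)) : ℕ))) (ℓ / (2 ^ (K ^ (2 * κ + 1)) : ℕ))).card : ℝ) ≤
      sysN (ty (s / Q)).2.1 K * (2 * (τ (s / Q) ^ Q / (τ (s / Q) ^ Q - 1))) * (τ (s / Q) ^ Q)⁻¹ ^ (R * K) * (2 ^ (K ^ (2 * κ + 1)) : ℕ) +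
        T s (ℓ / 2 ^ (K ^ (2 * κ + 1))))
    (hPC : ∃ t : ℕ → ℕ, ∀ p ∈ PP ty g Q K, ∀ p' ∈ PP ty g Q K,
      |(∑ b ∈ Finset.range (2 ^ (K ^ (2 * κ + 1))), (M (GU ty Q U p) (a + b * (ℓ / (2 ^ (K ^ (2 * κ + 1)) : ℕ))) (ℓ / (2 ^ (K ^ (2 * κ + 1)) : ℕ)) -
          M (GU ty Q U p) a ℓ) * A (GU ty Q U p') (t p'.1) (a + b * (ℓ / (2 ^ (K ^ (2 * κ + 1)) : ℕ))) (ℓ / (2 ^ (K ^ (2 * κ + 1)) : ℕ))) / (2 ^ (K ^ (2 * κ + 1)) : ℕ) -
        (if p = p' then sysv (ty (p.1 / Q)).2.1 p.2 else 0)| ≤ (1 / 2) ^ (4 * K))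
    (hgood : GoodU ty g Q R G κ U T K a ℓ) :
    (1 / 2 : ℝ) ^ (3 * K) * ((2 ^ (K ^ (2 * κ + 1)) : ℕ) : ℝ) ≤ (((Finset.range (2 ^ (K ^ (2 * κ + 1)))).filter fun b : ℕ =>
      GoodU ty g Q R G κ U T K (a + b * (ℓ / (2 ^ (K ^ (2 * κ + 1)) : ℕ))) (ℓ / (2 ^ (K ^ (2 * κ + 1)) : ℕ))).card : ℝ) := by
  classical
  have H1 := H.base
  obtain ⟨hmG, hCFG, hCbG, hG1, hmG9⟩ := H.G_ge
  have hQ := H1.hQ
  have hg := H1.hg
  have hm1 := H.m1
  have hK2 := B.hK2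
  have hK1 : 1 ≤ K := by omega
  have hKL : K ≤ K ^ (2 * κ + 1) := Nat.le_self_pow (by omega) K
  set Λ : ℕ := K ^ (2 * κ + 1) with hΛ
  have hBr : (((2 ^ Λ : ℕ)) : ℝ) = 2 ^ Λ := by push_cast; rfl
  have hℓ2 : 0 < ℓ / 2 ^ Λ := by positivity
  have hℓ2le : ℓ / 2 ^ Λ ≤ ℓ := div_le_self hℓ.le (one_le_pow₀ (by norm_num))
  have hℓeq : ℓ / ((2 ^ Λ : ℕ) : ℝ) = ℓ / 2 ^ Λ := by rw [hBr]
  set n : ℕ → ℕ := fun s => T s ℓ with hn
  set L' : ℕ → ℕ := fun s => T s (ℓ / 2 ^ Λ) - T s ℓ with hL'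
  -- the steps of the classes
  have hnL : ∀ s < g * Q, n s + L' s = T s (ℓ / 2 ^ Λ) := by
    intro s hs
    have h2 := (hblk s hs).2
    show T s ℓ + (T s (ℓ / 2 ^ Λ) - T s ℓ) = _
    omega
  have hL'le : ∀ s < g * Q, L' s ≤ CF * Λ := by
    intro s hs
    have h1 := (hblk s hs).1
    show T s (ℓ / 2 ^ Λ) - T s ℓ ≤ _
    omega
  have hL'ge : ∀ s < g * Q, 3 * (R * K) ≤ L' s := by
    intro s hs
    have h1 := (hblk s hs).2
    show _ ≤ T s (ℓ / 2 ^ Λ) - T s ℓ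
    omega
  have hT' : ∀ s < g * Q, n s + L' s + R * K ≤ 2 ^ (2 * K) := by
    intro s hs
    rw [hnL s hs]
    exact hcount s hs
  have hchild : ∀ b : ℕ, b < 2 ^ Λ → a + (b : ℝ) * (ℓ / (2 ^ Λ : ℕ)) + ℓ / (2 ^ Λ : ℕ) ≤ a + ℓ := by
    intro b hb
    have h1 : ((b : ℝ) + 1) ≤ ((2 ^ Λ : ℕ) : ℝ) := by exact_mod_cast Nat.succ_le_of_lt hb
    have h2 : (0 : ℝ) < ((2 ^ Λ : ℕ) : ℝ) := by positivity
    have h3 : ((b : ℝ) + 1) * (ℓ / ((2 ^ Λ : ℕ) : ℝ)) ≤ ((2 ^ Λ : ℕ) : ℝ) * (ℓ / ((2 ^ Λ : ℕ) : ℝ)) :=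
      mul_le_mul_of_nonneg_right h1 (div_nonneg hℓ.le h2.le)
    rw [mul_div_cancel₀ _ h2.ne'] at h3
    linarith
  obtain ⟨t, hPC⟩ := hPC
  obtain ⟨hPne, hPcard, hPsum, hPv⟩ := PP_nums H hK1
  have hs' : ∀ p ∈ PP ty g Q K, p.1 < g * Q := fun p hp => (hPv p hp).1
  have hβ : ∀ s < g * Q, 1 < τ (s / Q) ^ Q := fun s hs => base_gt hQ (H1.lt hs)
  -- numbers
  have hKr : (1 : ℝ) ≤ K := by exact_mod_cast hK1
  have hGr : (1 : ℝ) ≤ G := by exact_mod_cast hG1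
  have hmr : (1 : ℝ) ≤ m := by exact_mod_cast hm1
  have hgr : (1 : ℝ) ≤ g := by exact_mod_cast hg
  have hQr : (1 : ℝ) ≤ Q := by exact_mod_cast hQ
  have hCbr : (1 : ℝ) ≤ Cb := by exact_mod_cast H1.hCb1
  have hΛr : (1 : ℝ) ≤ (K : ℝ) ^ (2 * κ + 1) := one_le_pow₀ hKr
  have hΛc : ((Λ : ℕ) : ℝ) = (K : ℝ) ^ (2 * κ + 1) := by rw [hΛ]; push_cast; ring
  have hbigr : 8192 * (G : ℝ) * K * (K : ℝ) ^ (2 * κ + 1) ≤ 2 ^ K := by exact_mod_cast B.hbig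
  have hCFL : Λ ≤ CF * Λ := Nat.le_mul_of_pos_left _ H1.hCF1
  have hG9r : (g : ℝ) * Q * (9 * (m : ℝ) ^ 5) ≤ G := by exact_mod_cast hmG9
  have hz0 : (0 : ℝ) < 2 ^ K := by positivity
  have hGz : 8192 * (G : ℝ) ≤ 2 ^ K := by
    refine le_trans ?_ hbigr
    have h1 : (1 : ℝ) ≤ K * (K : ℝ) ^ (2 * κ + 1) := one_le_mul_of_one_le_of_one_le hKr hΛr
    have h2 := mul_le_mul_of_nonneg_left h1 (show (0 : ℝ) ≤ 8192 * G by linarith)
    calc 8192 * (G : ℝ) = 8192 * G * 1 := (mul_one _).symm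
      _ ≤ 8192 * (G : ℝ) * (K * (K : ℝ) ^ (2 * κ + 1)) := h2
      _ = _ := by ring
  have hGKz : 8192 * ((G : ℝ) * K) ≤ 2 ^ K := by
    refine le_trans ?_ hbigr
    have h2 := mul_le_mul_of_nonneg_left hΛr (show (0 : ℝ) ≤ 8192 * (G * K) by positivity)
    calc 8192 * ((G : ℝ) * K) = 8192 * (G * K) * 1 := (mul_one _).symm
      _ ≤ 8192 * ((G : ℝ) * K) * (K : ℝ) ^ (2 * κ + 1) := h2
      _ = _ := by ring
  have hm5 : (m : ℝ) ≤ m ^ 5 := le_self_pow₀ hmr (by norm_num)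
  have hm2 : (m : ℝ) ^ 2 ≤ m ^ 5 := pow_le_pow_right₀ hmr (by norm_num)
  have hgQ0 : (0 : ℝ) < (g : ℝ) * Q := by positivity
  -- the gain
  set lev : (Σ _ : ℕ, ℕ × ℕ × ℕ × ℕ) → ℕ := fun p => p.1 * (m * K) + syslev (ty (p.1 / Q)).2.1 K p.2 with hlev
  have hsys : ∀ s < g * Q, Sys (sysI (ty (s / Q)).2.1 K) (sysf (ty (s / Q)).2.1) (sysv (ty (s / Q)).2.1) (syslev (ty (s / Q)).2.1 K) K
      (sysN (ty (s / Q)).2.1 K) (sysm (ty (s / Q)).2.1) := by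
    intro s hs
    refine sys_all ?_ hK1
    rcases H.hty _ (Cst.idx_lt hs) with h1 | h1
    · exact Or.inl h1.2
    · right
      have h2 := h1.hpq
      have h3 := h1.hq
      omega
  have hmem : ∀ p, p ∈ PP ty g Q K ↔ p.1 < g * Q ∧ p.2 ∈ sysI (ty (p.1 / Q)).2.1 K := by
    intro p
    unfold PP
    rw [Finset.mem_sigma, Finset.mem_range]
  have hlevlt : ∀ p ∈ PP ty g Q K, syslev (ty (p.1 / Q)).2.1 K p.2 < m * K := by
    intro p hp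
    obtain ⟨h1, h2⟩ := (hmem p).1 hp
    exact ((hsys p.1 h1).lev_lt p.2 h2).trans_le (Nat.mul_le_mul_right K (H.hm _ (Cst.idx_lt h1)))
  have hGm : ∀ p ∈ PP ty g Q K, ∀ j, Measurable (GU ty Q U p j) ∧ ∀ x, |GU ty Q U p j x| ≤ 1 := by
    intro p hp j
    obtain ⟨h1, h2⟩ := (hmem p).1 hp
    have h3 := (hsys p.1 h1).fn p.2 h2
    exact ⟨h3.meas.comp (hmeas p.1 h1 j), fun x => h3.bdd _⟩
  have hNLr : ((g * Q * m * K : ℕ) : ℝ) = g * Q * m * K := by push_cast; ring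
  have hgain : ∀ gg : (Σ _ : ℕ, ℕ × ℕ × ℕ × ℕ) → ℝ, 1 / (2 * ((g * Q * m * K : ℕ) : ℝ)) *
      (∑ p ∈ PP ty g Q K, |gg p| * sysv (ty (p.1 / Q)).2.1 p.2) * ((2 ^ Λ : ℕ) : ℝ) ≤
      ∑ b ∈ Finset.range (2 ^ Λ), |∑ p ∈ PP ty g Q K, gg p * (M (GU ty Q U p) (a + b * (ℓ / (2 ^ Λ : ℕ))) (ℓ / (2 ^ Λ : ℕ)) -
        M (GU ty Q U p) a ℓ)| := by
    intro gg
    have h0 := gain4 (PP ty g Q K) lev (NL := g * Q * m * K) (B := 2 ^ Λ) (Nat.mul_pos (Nat.mul_pos (Nat.mul_pos hg hQ) hm1) hK1)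
      Nat.one_le_two_pow ?_ (fun p b => M (GU ty Q U p) (a + b * (ℓ / (2 ^ Λ : ℕ))) (ℓ / (2 ^ Λ : ℕ)) - M (GU ty Q U p) a ℓ)
      (fun p b => A (GU ty Q U p) (t p.1) (a + b * (ℓ / (2 ^ Λ : ℕ))) (ℓ / (2 ^ Λ : ℕ)))
      (fun p => sysv (ty (p.1 / Q)).2.1 p.2) (η := (1 / 2) ^ (4 * K)) ?_ ?_ ?_ gg
    · exact h0
    · intro p hp
      have h1 := hlevlt p hp
      have h2 := hs' p hp
      show p.1 * (m * K) + _ < g * Q * m * K
      calc p.1 * (m * K) + syslev (ty (p.1 / Q)).2.1 K p.2 < p.1 * (m * K) + m * K := Nat.add_lt_add_left h1 _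
        _ = (p.1 + 1) * (m * K) := by ring
        _ ≤ (g * Q) * (m * K) := Nat.mul_le_mul_right _ h2
        _ = g * Q * m * K := by ring
    · intro lv b _
      have hmK : 0 < m * K := Nat.mul_pos hm1 hK1
      set s₀ := lv / (m * K) with hs₀
      have hdec : ∀ p ∈ PP ty g Q K, lev p = lv → p.1 = s₀ ∧ syslev (ty (p.1 / Q)).2.1 K p.2 = lv % (m * K) := by
        intro p hp h1
        have h2 := hlevlt p hp
        have h3 : p.1 * (m * K) + syslev (ty (p.1 / Q)).2.1 K p.2 = lv := h1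
        constructor
        · rw [hs₀, ← h3, Nat.mul_comm, Nat.mul_add_div hmK, Nat.div_eq_of_lt h2, add_zero]
        · rw [← h3, Nat.mul_comm, Nat.mul_add_mod, Nat.mod_eq_of_lt h2]
      by_cases hs₀' : s₀ < g * Q
      · have hinj : ∑ p ∈ PP ty g Q K with lev p = lv, |A (GU ty Q U p) (t p.1) (a + b * (ℓ / (2 ^ Λ : ℕ))) (ℓ / (2 ^ Λ : ℕ))| ≤
            ∑ q ∈ (sysI (ty (s₀ / Q)).2.1 K).filter fun q => syslev (ty (s₀ / Q)).2.1 K q = lv % (m * K),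
              |A (GU ty Q U ⟨s₀, q⟩) (t s₀) (a + b * (ℓ / (2 ^ Λ : ℕ))) (ℓ / (2 ^ Λ : ℕ))| := by
          refine le_of_eq ?_
          refine Finset.sum_bij (fun p _ => p.2) ?_ ?_ ?_ ?_
          · intro p hp
            obtain ⟨h1, h2⟩ := Finset.mem_filter.1 hp
            obtain ⟨h3, h4⟩ := hdec p h1 h2
            rw [Finset.mem_filter]
            rw [← h3]
            exact ⟨((hmem p).1 h1).2, h4⟩
          · intro p hp p' hp' he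
            obtain ⟨h1, h2⟩ := Finset.mem_filter.1 hp
            obtain ⟨h1', h2'⟩ := Finset.mem_filter.1 hp'
            obtain ⟨h3, -⟩ := hdec p h1 h2
            obtain ⟨h3', -⟩ := hdec p' h1' h2'
            rcases p with ⟨p1, p2⟩
            rcases p' with ⟨p1', p2'⟩
            dsimp only at h3 h3' he
            rw [h3, h3', he]
          · intro q hq
            obtain ⟨h1, h2⟩ := Finset.mem_filter.1 hq
            refine ⟨⟨s₀, q⟩, Finset.mem_filter.2 ⟨(hmem _).2 ⟨hs₀', h1⟩, ?_⟩, rfl⟩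
            show s₀ * (m * K) + syslev (ty (s₀ / Q)).2.1 K q = lv
            rw [h2, hs₀, Nat.mul_comm]
            exact Nat.div_add_mod lv (m * K)
          · intro p hp
            obtain ⟨h1, h2⟩ := Finset.mem_filter.1 hp
            obtain ⟨h3, -⟩ := hdec p h1 h2
            rcases p with ⟨p1, p2⟩
            dsimp only at h3
            subst h3
            rfl
        refine hinj.trans ?_
        refine level_sum _ (fun q => GU ty Q U ⟨s₀, q⟩ (t s₀)) (fun q hq => ?_) (fun q hq => ?_) (fun x => ?_) _ (by rw [hℓeq]; exact hℓ2)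
        · exact (hGm ⟨s₀, q⟩ ((hmem _).2 ⟨hs₀', (Finset.mem_filter.1 hq).1⟩) _).1
        · exact (hGm ⟨s₀, q⟩ ((hmem _).2 ⟨hs₀', (Finset.mem_filter.1 hq).1⟩) _).2
        · exact (hsys s₀ hs₀').lev_sum (lv % (m * K)) (U s₀ (t s₀) x)
      · rw [Finset.sum_eq_zero]
        · norm_num
        · intro p hp
          obtain ⟨h1, h2⟩ := Finset.mem_filter.1 hp
          obtain ⟨h3, -⟩ := hdec p h1 h2
          exact absurd (h3 ▸ hs' p h1) hs₀'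
    · intro p hp p' hp'
      exact hPC p hp p' hp'
    · intro p hp
      obtain ⟨-, hv1, -, -⟩ := hPv p hp
      have hv1' : 1 / ((m : ℝ) * 2 ^ K) / 2 ≤ sysv (ty (p.1 / Q)).2.1 p.2 / 2 := by linarith
      refine le_trans ?_ hv1'
      have h4 : (1 / 2 : ℝ) ^ (4 * K) = 1 / (2 ^ K) ^ 4 := by rw [one_div_pow, ← pow_mul, mul_comm K 4]
      rw [h4]
      have h5 : 1 / ((2 : ℝ) ^ K) ^ 4 * ((PP ty g Q K).card : ℝ) ≤ 1 / (2 ^ K) ^ 4 * (g * Q * m * 2 ^ K) :=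
        mul_le_mul_of_nonneg_left hPcard (by positivity)
      refine h5.trans ?_
      rw [div_div, one_div, inv_mul_eq_div, div_le_div_iff₀ (by positivity) (by positivity)]
      have h6 : (g : ℝ) * Q * m ^ 2 * 2 ≤ 2 ^ K := by
        have h7 : (g : ℝ) * Q * m ^ 2 ≤ g * Q * m ^ 5 := mul_le_mul_of_nonneg_left hm2 hgQ0.le
        have h8 : 0 ≤ (g : ℝ) * Q * m ^ 5 := by positivity
        linarith
      have h7 : (1 : ℝ) ≤ 2 ^ K := one_le_pow₀ (by norm_num)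
      calc (g : ℝ) * Q * m * 2 ^ K * (m * 2 ^ K * 2) = (g * Q * m ^ 2 * 2) * (2 ^ K) ^ 2 := by ring
        _ ≤ 2 ^ K * (2 ^ K) ^ 2 := mul_le_mul_of_nonneg_right h6 (by positivity)
        _ = (2 ^ K) ^ 3 * 1 := by ring
        _ ≤ (2 ^ K) ^ 3 * 2 ^ K := mul_le_mul_of_nonneg_left h7 (by positivity)
        _ = 1 * (2 ^ K) ^ 4 := by ring
  -- the abstract step
  have hCv1 : (1 : ℝ) ≤ 3 * (m : ℝ) ^ 2 := by
    have : (1 : ℝ) ≤ (m : ℝ) ^ 2 := one_le_pow₀ hmr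
    linarith
  have hS := step4 (PP ty g Q K) hPne (G := GU ty Q U) (β := fun p => τ (p.1 / Q) ^ Q)
    (w := fun p => 3 * (m : ℝ) ^ 2 * sysv (ty (p.1 / Q)).2.1 p.2) (v := fun p => sysv (ty (p.1 / Q)).2.1 p.2)
    (n := fun p => n p.1) (L' := fun p => L' p.1) (K := K) (r := R * K) (L := CF * Λ) (B := 2 ^ Λ) (a := a) (ℓ := ℓ) (Cb := (Cb : ℝ))
    (Cw := 3 * (m : ℝ) ^ 2) (Cv := 3 * (m : ℝ) ^ 2) (Nl := ((g * Q * m * K : ℕ) : ℝ)) (lam := lamG G K ((K : ℝ) ^ (2 * κ + 1)))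
    hK2 (Nat.mul_pos H1.hR1 hK1) Nat.one_le_two_pow (fun p hp => H1.hCb _ (Cst.idx_lt (hs' p hp))) hCbr
    (fun p hp => mul_le_of_le_one_right (by linarith) (hPv p hp).2.2.1) hCv1 (fun p _ => le_rfl) hCv1
    (fun p hp => by
      refine le_trans ?_ (hPv p hp).2.1
      rw [one_div_pow, div_div]
      refine one_div_le_one_div_of_le (by positivity) ?_
      calc (m : ℝ) * 2 ^ K = 2 ^ K * m := mul_comm _ _
        _ ≤ 2 ^ K * (3 * (m : ℝ) ^ 2) := by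
            refine mul_le_mul_of_nonneg_left ?_ hz0.le
            nlinarith)
    (by rw [hNLr]; exact hPsum)
    (by
      have : 1 ≤ g * Q * m * K := Nat.mul_pos (Nat.mul_pos (Nat.mul_pos hg hQ) hm1) hK1
      exact_mod_cast this)
    (fun p hp => ⟨hL'ge _ (hs' p hp), hL'le _ (hs' p hp)⟩)
    (by
      have : (R * K) ^ 2 ≤ CF * Λ := B.hR2.trans hCFL
      exact_mod_cast this)
    (by
      have : Cb * (3 * m ^ 2) ≤ CF * Λ := B.hCbK.trans (hKL.trans hCFL)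
      exact_mod_cast this)
    (by
      unfold lamG
      rw [div_mul_eq_mul_div, one_mul, div_le_one (by positivity), hNLr]
      have h1 : ((g * Q * Cb ^ 2 * CF * (9 * m ^ 5) : ℕ) : ℝ) ≤ G := by exact_mod_cast H.hG4
      push_cast at h1
      have h2 : 8192 * ((g : ℝ) * Q * m * K) * (Cb : ℝ) ^ 2 * (3 * (m : ℝ) ^ 2) * (3 * (m : ℝ) ^ 2) * ((CF * Λ : ℕ) : ℝ) =
          8192 * (g * Q * Cb ^ 2 * CF * (9 * m ^ 5)) * K * (K : ℝ) ^ (2 * κ + 1) := by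
        push_cast
        rw [hΛc]
        ring
      rw [h2]
      have h3 : 8192 * ((g : ℝ) * Q * Cb ^ 2 * CF * (9 * m ^ 5)) ≤ 8192 * G := by linarith
      exact mul_le_mul_of_nonneg_right (mul_le_mul_of_nonneg_right h3 (by linarith)) (by linarith))
    (by
      unfold lamG
      rw [one_div_pow]
      exact one_div_le_one_div_of_le (by positivity) hbigr)
    (fun p hp => hWd p hp a ℓ hℓ le_rfl le_rfl)
    (fun p hp b hb => by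
      have h0 : (0 : ℝ) ≤ b * (ℓ / ((2 ^ Λ : ℕ) : ℝ)) := by positivity
      have h1 := hWd p hp (a + b * (ℓ / (2 ^ Λ : ℕ))) (ℓ / (2 ^ Λ : ℕ)) (by rw [hℓeq]; exact hℓ2) (by linarith) (hchild b hb)
      show Wd _ _ _ (n p.1 + L' p.1) _ _
      rw [hnL _ (hs' p hp)]
      rw [hℓeq] at h1 ⊢
      exact h1)
    hgain (fun p hp => GU_NB H hK1 hp (hgood.1 _ (hs' p hp))) hgood.2
  -- children with a cell boundary
  have hNBc : ∀ s < g * Q, (((Finset.range (2 ^ Λ)).filter fun b : ℕ => ¬ NBg (U s) (n s + L' s) (R * K) (sysN (ty (s / Q)).2.1 K)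
      (a + b * (ℓ / (2 ^ Λ : ℕ))) (ℓ / (2 ^ Λ : ℕ))).card : ℝ) ≤
      m * 2 ^ K * K * (1 / 2) ^ (12 * K) * ((2 ^ Λ : ℕ) : ℝ) + 2 ^ (2 * K) := by
    intro s hs
    have h1 := hnb s hs
    rw [← hnL s hs] at h1
    refine h1.trans ?_
    have h2 : ((n s + L' s : ℕ) : ℝ) ≤ 2 ^ (2 * K) := by
      have := hT' s hs
      exact_mod_cast (by omega : n s + L' s ≤ 2 ^ (2 * K))
    have h3 : (τ (s / Q) ^ Q)⁻¹ ^ (R * K) ≤ (1 / 2) ^ (12 * K) := by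
      have h4 : (2 : ℝ) ^ (12 * K) ≤ (τ (s / Q) ^ Q) ^ (R * K) := by
        calc (2 : ℝ) ^ (12 * K) = (2 ^ 12) ^ K := pow_mul _ _ _
          _ ≤ ((τ (s / Q) ^ Q) ^ R) ^ K := pow_le_pow_left₀ (by positivity) (H1.hR _ (Cst.idx_lt hs)) K
          _ = (τ (s / Q) ^ Q) ^ (R * K) := (pow_mul _ _ _).symm
      rw [inv_pow, ← one_div, one_div_pow]
      exact one_div_le_one_div_of_le (by positivity) h4
    have h5 : ((sysN (ty (s / Q)).2.1 K : ℕ) : ℝ) ≤ m * 2 ^ K := by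
      have h6 : sysN (ty (s / Q)).2.1 K ≤ m * 2 ^ K := (hsys s hs).N2.trans (Nat.mul_le_mul_right _ (H.hm _ (Cst.idx_lt hs)))
      exact_mod_cast h6
    have h6 : 2 * (τ (s / Q) ^ Q / (τ (s / Q) ^ Q - 1)) ≤ (K : ℝ) := by
      have h61 := H1.hCb _ (Cst.idx_lt hs)
      have h62 : 2 * Cb ≤ K := by
        refine le_trans ?_ B.hCbK
        have h63 : 1 ≤ m ^ 2 := Nat.pow_pos hm1
        calc 2 * Cb = Cb * 2 := Nat.mul_comm _ _
          _ ≤ Cb * (3 * m ^ 2) := Nat.mul_le_mul_left _ (by omega)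
      have h64 : (2 : ℝ) * Cb ≤ K := by exact_mod_cast h62
      linarith
    have h7 : 0 ≤ 2 * (τ (s / Q) ^ Q / (τ (s / Q) ^ Q - 1)) :=
      mul_nonneg (by norm_num) (div_nonneg (by linarith [hβ s hs]) (by linarith [hβ s hs]))
    have h8 : 0 ≤ (τ (s / Q) ^ Q)⁻¹ ^ (R * K) := by
      have := hβ s hs
      positivity
    have h9 : (sysN (ty (s / Q)).2.1 K : ℝ) * (2 * (τ (s / Q) ^ Q / (τ (s / Q) ^ Q - 1))) * (τ (s / Q) ^ Q)⁻¹ ^ (R * K) * ((2 ^ Λ : ℕ) : ℝ) ≤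
        m * 2 ^ K * K * (1 / 2) ^ (12 * K) * ((2 ^ Λ : ℕ) : ℝ) := by gcongr
    linarith
  -- good children
  have hsub : ((Finset.range (2 ^ Λ)).filter fun b : ℕ =>
      ∑ p ∈ PP ty g Q K, Pot (GU ty Q U p) (n p.1 + L' p.1) (R * K) (lamG G K ((K : ℝ) ^ (2 * κ + 1))) (a + b * (ℓ / (2 ^ Λ : ℕ))) (ℓ / (2 ^ Λ : ℕ)) ≤ 16 ^ K) ⊆
      ((Finset.range (2 ^ Λ)).filter fun b : ℕ => GoodU ty g Q R G κ U T K (a + b * (ℓ / (2 ^ Λ : ℕ))) (ℓ / (2 ^ Λ : ℕ))) ∪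
      (Finset.range (g * Q)).biUnion fun s => (Finset.range (2 ^ Λ)).filter fun b : ℕ =>
        ¬ NBg (U s) (n s + L' s) (R * K) (sysN (ty (s / Q)).2.1 K) (a + b * (ℓ / (2 ^ Λ : ℕ))) (ℓ / (2 ^ Λ : ℕ)) := by
    intro b hb
    rw [Finset.mem_filter] at hb
    obtain ⟨hb1, hb2⟩ := hb
    rw [Finset.mem_union, Finset.mem_filter]
    by_cases hnb : ∀ s < g * Q, NBg (U s) (n s + L' s) (R * K) (sysN (ty (s / Q)).2.1 K) (a + b * (ℓ / (2 ^ Λ : ℕ))) (ℓ / (2 ^ Λ : ℕ))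
    · left
      refine ⟨hb1, ?_, ?_⟩
      · intro s hs
        have h1 := hnb s hs
        rw [hnL s hs] at h1
        rw [hℓeq] at h1 ⊢
        exact h1
      · have h2 : ∑ p ∈ PP ty g Q K, Pot (GU ty Q U p) (n p.1 + L' p.1) (R * K) (lamG G K ((K : ℝ) ^ (2 * κ + 1)))
            (a + b * (ℓ / (2 ^ Λ : ℕ))) (ℓ / (2 ^ Λ : ℕ)) =
            ∑ p ∈ PP ty g Q K, Pot (GU ty Q U p) (T p.1 (ℓ / (2 ^ Λ : ℕ))) (R * K) (lamG G K ((K : ℝ) ^ (2 * κ + 1)))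
              (a + b * (ℓ / (2 ^ Λ : ℕ))) (ℓ / (2 ^ Λ : ℕ)) := by
          refine Finset.sum_congr rfl fun p hp => ?_
          rw [hnL _ (hs' p hp), hℓeq]
        rw [← h2]
        exact hb2
    · right
      push Not at hnb
      obtain ⟨s, hs, hs'⟩ := hnb
      rw [Finset.mem_biUnion]
      exact ⟨s, Finset.mem_range.2 hs, Finset.mem_filter.2 ⟨hb1, hs'⟩⟩
  have hcard := (Finset.card_le_card hsub).trans ((Finset.card_union_le _ _).trans (Nat.add_le_add_left Finset.card_biUnion_le _))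
  have hcard' := (Nat.cast_le (α := ℝ)).2 hcard
  push_cast at hcard'
  have hbad : ∑ s ∈ Finset.range (g * Q), (((Finset.range (2 ^ Λ)).filter fun b : ℕ =>
      ¬ NBg (U s) (n s + L' s) (R * K) (sysN (ty (s / Q)).2.1 K) (a + b * (ℓ / 2 ^ Λ)) (ℓ / 2 ^ Λ)).card : ℝ) ≤
      (1 / 2) ^ (3 * K) * ((2 ^ Λ : ℕ) : ℝ) := by
    have h1 : ∑ s ∈ Finset.range (g * Q), (((Finset.range (2 ^ Λ)).filter fun b : ℕ =>
        ¬ NBg (U s) (n s + L' s) (R * K) (sysN (ty (s / Q)).2.1 K) (a + b * (ℓ / 2 ^ Λ)) (ℓ / 2 ^ Λ)).card : ℝ) ≤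
        ∑ _s ∈ Finset.range (g * Q), ((m : ℝ) * 2 ^ K * K * (1 / 2) ^ (12 * K) * ((2 ^ Λ : ℕ) : ℝ) + 2 ^ (2 * K)) := by
      refine Finset.sum_le_sum fun s hs => ?_
      have h2 := hNBc s (Finset.mem_range.1 hs)
      rw [hBr] at h2 ⊢
      convert h2 using 3
    refine h1.trans ?_
    rw [Finset.sum_const, Finset.card_range, nsmul_eq_mul]
    obtain ⟨z, hz⟩ : ∃ z : ℝ, z = 2 ^ K := ⟨_, rfl⟩
    have hz4 : 4 ≤ z := by
      rw [hz]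
      calc (4 : ℝ) = 2 ^ 2 := by norm_num
        _ ≤ 2 ^ K := pow_le_pow_right₀ (by norm_num) hK2
    rw [← hz] at hGKz hGz
    have hmm : (g : ℝ) * Q * m ≤ G := by
      have h7 : (g : ℝ) * Q * m ≤ g * Q * m ^ 5 := mul_le_mul_of_nonneg_left hm5 hgQ0.le
      have h8 : 0 ≤ (g : ℝ) * Q * m ^ 5 := by positivity
      linarith
    have hmz : (g : ℝ) * Q * m * K ≤ z := by
      have h4 : (g : ℝ) * Q * m * K ≤ G * K := mul_le_mul_of_nonneg_right hmm (by linarith)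
      have : (0 : ℝ) ≤ G * K := by positivity
      linarith
    have hm1r : (g : ℝ) * Q ≤ z := by
      have h3 : (g : ℝ) * Q * 1 ≤ g * Q * m := mul_le_mul_of_nonneg_left hmr hgQ0.le
      have h4 : (0 : ℝ) ≤ G := by linarith
      linarith
    have h12 : (1 / 2 : ℝ) ^ (12 * K) = 1 / z ^ 12 := by rw [hz, one_div_pow, ← pow_mul, mul_comm K 12]
    have h3' : (1 / 2 : ℝ) ^ (3 * K) = 1 / z ^ 3 := by rw [hz, one_div_pow, ← pow_mul, mul_comm K 3]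
    have h2' : (2 : ℝ) ^ (2 * K) = z ^ 2 := by rw [hz, ← pow_mul, mul_comm K 2]
    have hB12 : z ^ 12 ≤ ((2 ^ Λ : ℕ) : ℝ) := by
      rw [hBr, hz, ← pow_mul, mul_comm K 12]
      exact pow_le_pow_right₀ (by norm_num) B.hB
    obtain ⟨Y, hY⟩ : ∃ Y : ℝ, Y = ((2 ^ Λ : ℕ) : ℝ) := ⟨_, rfl⟩
    rw [← hY] at hB12
    rw [← hY]
    have hY0 : 0 < Y := lt_of_lt_of_le (by positivity) hB12
    rw [h12, h3', h2', ← hz]
    push_cast
    have q1 : (g : ℝ) * Q * (m * z * K * (1 / z ^ 12) * Y) ≤ z ^ 2 * (1 / z ^ 12) * Y := by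
      have : (g : ℝ) * Q * (m * z * K * (1 / z ^ 12) * Y) = z * (g * Q * m * K) * (1 / z ^ 12) * Y := by ring
      rw [this]
      calc z * ((g : ℝ) * Q * m * K) * (1 / z ^ 12) * Y ≤ z * z * (1 / z ^ 12) * Y := by gcongr
        _ = _ := by ring
    have q2 : z ^ 2 * (1 / z ^ 12) * Y = 1 / z ^ 7 * (1 / z ^ 3 * Y) := by
      field_simp
    have q3 : (g : ℝ) * Q * z ^ 2 ≤ 1 / z ^ 6 * (1 / z ^ 3 * Y) := by
      have : z ^ 3 ≤ 1 / z ^ 6 * (1 / z ^ 3 * Y) := by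
        have e1 : 1 / z ^ 6 * (1 / z ^ 3 * Y) = Y / z ^ 9 := by
          field_simp
        rw [e1, le_div_iff₀ (by positivity)]
        calc z ^ 3 * z ^ 9 = z ^ 12 := by ring
          _ ≤ Y := hB12
      refine le_trans ?_ this
      calc (g : ℝ) * Q * z ^ 2 ≤ z * z ^ 2 := by gcongr
        _ = z ^ 3 := by ring
    have q4 : 1 / z ^ 7 ≤ 1 / 2 := by
      rw [div_le_div_iff₀ (by positivity) (by norm_num)]
      have : (4 : ℝ) ^ 7 ≤ z ^ 7 := pow_le_pow_left₀ (by norm_num) hz4 7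
      linarith
    have q5 : 1 / z ^ 6 ≤ 1 / 2 := by
      rw [div_le_div_iff₀ (by positivity) (by norm_num)]
      have : (4 : ℝ) ^ 6 ≤ z ^ 6 := pow_le_pow_left₀ (by norm_num) hz4 6
      linarith
    have q6 : 0 ≤ 1 / z ^ 3 * Y := by positivity
    rw [mul_add]
    have q7 := mul_le_mul_of_nonneg_right q4 q6
    have q8 := mul_le_mul_of_nonneg_right q5 q6
    linarith
  have hfin : 2 * (1 / 2 : ℝ) ^ (3 * K) * ((2 ^ Λ : ℕ) : ℝ) ≤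
      (((Finset.range (2 ^ Λ)).filter fun b : ℕ => GoodU ty g Q R G κ U T K (a + b * (ℓ / 2 ^ Λ)) (ℓ / 2 ^ Λ)).card : ℝ) +
        (1 / 2) ^ (3 * K) * ((2 ^ Λ : ℕ) : ℝ) := by
    have hS2 := hS
    rw [hℓeq] at hS2
    refine hS2.trans (le_trans ?_ (add_le_add_right hbad _))
    convert hcard' using 3
  have hfin2 : (1 / 2 : ℝ) ^ (3 * K) * ((2 ^ Λ : ℕ) : ℝ) ≤
      (((Finset.range (2 ^ Λ)).filter fun b : ℕ => GoodU ty g Q R G κ U T K (a + b * (ℓ / 2 ^ Λ)) (ℓ / 2 ^ Λ)).card : ℝ) := by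
    linarith
  rw [hℓeq]
  convert hfin2 using 3


end Pool.Agent.Helper52.LD5
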